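import Pool.Agent.H251R6.SDD.Final

/-!
# Periodic subvarieties of small dynamical degree and of large period through a rational point

Over every number field `K` there are a projective variety `X`, a surjective endomorphism `f` of
`X`, both defined over `K`, with first dynamical degree `3 > 1`, and a `K`-rational point `x₀` of
`X` that lies on `f`-periodic subvarieties of small dynamical degree of arbitrarily large period.
So the answer to the question is negative for this `f` and every `d ≥ 1`.

The example is `X = ℙ¹ × ℙ¹ × ℙ¹` (in `ℙ⁷` by the Segre embedding), `f = (u³, z², w²)`, and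
`Y = {∞} × {w = l z}` with `l` a primitive root of unity of order `2 ^ M - 1`: it is a curve of period
`M`, the restriction of `f ^ M` to it has first dynamical degree `2 ^ M < 3 ^ M`.
-/

namespace Pool.Agent.Results.MP_3de96c_nt.LargePeriodSmallDegree

open Pool.Agent.H251R6.SDD

/-- Negative answer to Q1, over every number field and for every `d ≥ 1`. -/
theorem result : ∀ (K : Type) [Field K] [NumberField K],
    ∃ (ι : Type) (_ : Fintype ι) (X : Set (PSpace (AlgebraicClosure K) ι))
      (f : PSpace (AlgebraicClosure K) ι → PSpace (AlgebraicClosure K) ι),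
      IsVarietyOver K X ∧ IsSurjectiveEndomorphism K X f ∧ IsFirstDynamicalDegree X f 3 ∧
      ∀ d : ℝ, 1 ≤ d → ∀ N : ℕ, ∃ Y ⊆ X, IsZariskiClosed Y ∧ IsIrred Y ∧ IsPeriodic f Y ∧
        IsSDD X f Y ∧ N < period f Y ∧
        ∃ x ∈ Y, (Module.finrank K (pointField K x) : ℝ) ≤ d := by
  intro K _ _
  obtain ⟨h1, h2, h3, h4, h5, h6, h7⟩ := main K (AlgebraicClosure K)
  refine ⟨I8, inferInstance, XX (AlgebraicClosure K), ff, h1, h2, h3, ?_⟩
  intro d hd N
  obtain ⟨Y, hYX, hY1, hY2, hY3, hY4, hY5, hY6⟩ := h7 N
  refine ⟨Y, hYX, hY1, hY2, hY3, hY4, hY5, _, hY6, ?_⟩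
  rw [h6, IntermediateField.finrank_bot]
  simpa using hd

end Pool.Agent.Results.MP_3de96c_nt.LargePeriodSmallDegree
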